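import Pool.Agent.FKP.Stmts

/-!
# FKP: module GLU, the part with at most `r` rows
-/

set_option autoImplicit false

open Finset

noncomputable section

namespace Pool.Agent.FKP.H9

open Pool.Agent.FKP

variable {N : ℕ}

theorem wd_nil : wd (N := N) [] = 1 := rfl

theorem wd_cons (p : Fin N × Fin N) (l : List (Fin N × Fin N)) :
    wd (p :: l) = X p.1 p.2 * wd l := by simp [wd]

theorem kilS_wd (S : Finset (Fin N)) (l : List (Fin N × Fin N)) :
    kilS S (wd l) = if ∃ p ∈ l, p.1 ∈ S ∨ p.2 ∈ S then 0 else wd l := by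
  induction l with
  | nil => simp [wd_nil]
  | cons p l ih =>
    rw [wd_cons, map_mul, ih, kilS_X]
    by_cases h1 : p.1 ∈ S ∨ p.2 ∈ S
    · rw [if_pos h1, zero_mul, if_pos ⟨p, List.mem_cons_self, h1⟩]
    · rw [if_neg h1]
      by_cases h2 : ∃ q ∈ l, q.1 ∈ S ∨ q.2 ∈ S
      · obtain ⟨q, hq, h3⟩ := h2
        rw [if_pos ⟨q, hq, h3⟩, mul_zero, if_pos ⟨q, List.mem_cons_of_mem _ hq, h3⟩]
      · rw [if_neg h2, if_neg]
        rintro ⟨q, hq, h3⟩
        rcases List.mem_cons.1 hq with rfl | hq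
        · exact h1 h3
        · exact h2 ⟨q, hq, h3⟩

theorem kil_wd (i : Fin N) (l : List (Fin N × Fin N)) :
    kil i (wd l) = if ∃ p ∈ l, p.1 = i ∨ p.2 = i then 0 else wd l := by
  induction l with
  | nil => simp [wd_nil]
  | cons p l ih =>
    rw [wd_cons, map_mul, ih, kil_X]
    by_cases h1 : p.1 = i ∨ p.2 = i
    · rw [if_pos h1, zero_mul, if_pos ⟨p, List.mem_cons_self, h1⟩]
    · rw [if_neg h1]
      by_cases h2 : ∃ q ∈ l, q.1 = i ∨ q.2 = i
      · obtain ⟨q, hq, h3⟩ := h2
        rw [if_pos ⟨q, hq, h3⟩, mul_zero, if_pos ⟨q, List.mem_cons_of_mem _ hq, h3⟩]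
      · rw [if_neg h2, if_neg]
        rintro ⟨q, hq, h3⟩
        rcases List.mem_cons.1 hq with rfl | hq
        · exact h1 h3
        · exact h2 ⟨q, hq, h3⟩

theorem mem_rows {j : ℕ} {l : List (Fin N × Fin N)} {i : Fin N} :
    i ∈ rows j l ↔ (∃ p ∈ l, p.1 = i) ∧ i.val < j := by
  simp [rows]

/-- on the words in outside and upper letters `kil i`, `i < j`, tests whether `i` is a row -/
theorem kil_wd_row {j : ℕ} (i : Fin N) (hi : i.val < j) (l : List (Fin N × Fin N))
    (hl : ∀ p ∈ l, IsOut j p ∨ IsUp j p) :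
    kil i (wd l) = if i ∈ rows j l then 0 else wd l := by
  rw [kil_wd]
  have h : (∃ p ∈ l, p.1 = i ∨ p.2 = i) ↔ i ∈ rows j l := by
    rw [mem_rows]
    constructor
    · rintro ⟨p, hp, h1 | h1⟩
      · exact ⟨⟨p, hp, h1⟩, hi⟩
      · exfalso
        rcases hl p hp with h2 | h2
        · have := h2.2
          rw [h1] at this
          omega
        · have h3 := h2.1
          have h4 : p.1.val < p.2.val := h2.2
          rw [h1] at h4
          omega
    · rintro ⟨⟨p, hp, h1⟩, _⟩
      exact ⟨p, hp, Or.inl h1⟩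
  simp only [h]

theorem kilS_wd_row {j : ℕ} (S : Finset (Fin N)) (hS : ∀ i ∈ S, i.val < j)
    (l : List (Fin N × Fin N)) (hl : ∀ p ∈ l, IsOut j p ∨ IsUp j p) :
    kilS S (wd l) = if Disjoint S (rows j l) then wd l else 0 := by
  rw [kilS_wd]
  by_cases h : ∃ p ∈ l, p.1 ∈ S ∨ p.2 ∈ S
  · rw [if_pos h, if_neg]
    intro h5
    obtain ⟨p, hp, h1 | h1⟩ := h
    · exact Finset.disjoint_left.1 h5 h1 (mem_rows.2 ⟨⟨p, hp, rfl⟩, hS _ h1⟩)
    · have h0 := hS _ h1
      rcases hl p hp with h2 | h2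
      · have := h2.2
        omega
      · have h3 := h2.1
        have h4 : p.1.val < p.2.val := h2.2
        omega
  · rw [if_neg h, if_pos]
    refine Finset.disjoint_left.2 fun i hi hi' => h ?_
    obtain ⟨⟨p, hp, h1⟩, _⟩ := mem_rows.1 hi'
    exact ⟨p, hp, Or.inl (h1 ▸ hi)⟩

theorem kilS_kilS {S S' : Finset (Fin N)} (h : S' ⊆ S) (z : A N) :
    kilS S (kilS S' z) = kilS S z := by
  have : (kilS S).comp (kilS S') = kilS S := by
    refine A_hom_ext fun a b _ => ?_
    rw [RingHom.comp_apply, kilS_X, kilS_X]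
    by_cases h1 : a ∈ S' ∨ b ∈ S'
    · rw [if_pos h1, map_zero, if_pos]
      rcases h1 with h1 | h1
      · exact Or.inl (h h1)
      · exact Or.inr (h h1)
    · rw [if_neg h1, kilS_X]
  exact RingHom.congr_fun this z

/-- the product of the `1 - kil i` -/
def D : List (Fin N) → A N → A N
  | [], z => z
  | i :: ks, z => D ks z - kil i (D ks z)

theorem D_P (ks : List (Fin N)) {z : A N} (hz : z ∈ P N) : D ks z ∈ P N := by
  induction ks with
  | nil => exact hz
  | cons i ks ih => exact sub_kil_P i ih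

theorem D_zero (ks : List (Fin N)) : D ks (0 : A N) = 0 := by
  induction ks with
  | nil => rfl
  | cons i ks ih => rw [D, ih, map_zero, sub_zero]

theorem D_add (ks : List (Fin N)) (z w : A N) : D ks (z + w) = D ks z + D ks w := by
  induction ks with
  | nil => rfl
  | cons i ks ih =>
    rw [D, D, D, ih, map_add]
    abel

theorem D_neg (ks : List (Fin N)) (z : A N) : D ks (-z) = -D ks z := by
  induction ks with
  | nil => rfl
  | cons i ks ih =>
    rw [D, D, ih, map_neg]
    abel

theorem D_wd {j : ℕ} (ks : List (Fin N)) (hks : ∀ i ∈ ks, i.val < j) (l : List (Fin N × Fin N))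
    (hl : ∀ p ∈ l, IsOut j p ∨ IsUp j p) :
    D ks (wd l) = if ∀ i ∈ ks, i ∈ rows j l then wd l else 0 := by
  induction ks with
  | nil => simp [D]
  | cons i ks ih =>
    rw [D, ih fun k hk => hks k (List.mem_cons_of_mem _ hk)]
    by_cases h1 : ∀ k ∈ ks, k ∈ rows j l
    · rw [if_pos h1, kil_wd_row i (hks i List.mem_cons_self) l hl]
      by_cases h2 : i ∈ rows j l
      · rw [if_pos h2, sub_zero, if_pos]
        intro k hk
        rcases List.mem_cons.1 hk with rfl | hk
        · exact h2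
        · exact h1 k hk
      · rw [if_neg h2, sub_self, if_neg]
        exact fun h3 => h2 (h3 i List.mem_cons_self)
    · rw [if_neg h1, map_zero, sub_zero, if_neg]
      exact fun h3 => h1 fun k hk => h3 k (List.mem_cons_of_mem _ hk)

/-- the rows -/
def T (N j : ℕ) : Finset (Fin N) := univ.filter fun i => i.val < j

theorem mem_T {j : ℕ} {i : Fin N} : i ∈ T N j ↔ i.val < j := by simp [T]

theorem card_T {j : ℕ} (hj : j ≤ N) : (T N j).card = j := by
  have h : (T N j).map ⟨fun i : Fin N => i.val, Fin.val_injective⟩ = Finset.range j := by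
    ext x
    simp only [mem_map, mem_T, Function.Embedding.coeFn_mk, mem_range]
    constructor
    · rintro ⟨i, hi, rfl⟩; exact hi
    · intro hx; exact ⟨⟨x, by omega⟩, hx, rfl⟩
  have h2 := congrArg Finset.card h
  rwa [card_map, card_range] at h2

theorem filter_T (j : ℕ) (K : Finset (Fin N)) :
    (univ.filter fun i : Fin N => i.val < j ∧ i ∉ K) = T N j \ K := by
  ext i
  simp [mem_T]

/-- the part of a set of rows -/
def prt (j : ℕ) (K : Finset (Fin N)) (z : A N) : A N := D K.toList (kilS (T N j \ K) z)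

/-- the part with at most `r` rows -/
def FF (j r : ℕ) (z : A N) : A N :=
  ∑ K ∈ (T N j).powerset.filter fun K => K.card ≤ r, prt j K z

theorem prt_wd {j : ℕ} {K : Finset (Fin N)} (hK : K ⊆ T N j) (l : List (Fin N × Fin N))
    (hl : ∀ p ∈ l, IsOut j p ∨ IsUp j p) :
    prt j K (wd l) = if K = rows j l then wd l else 0 := by
  rw [prt, kilS_wd_row (j := j) _ (fun i hi => mem_T.1 (mem_sdiff.1 hi).1) l hl]
  by_cases h1 : Disjoint (T N j \ K) (rows j l)
  · rw [if_pos h1, D_wd (j := j) _ (fun i hi => mem_T.1 (hK (mem_toList.1 hi))) l hl]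
    have h2 : rows j l ⊆ K := by
      intro i hi
      by_contra h3
      exact Finset.disjoint_left.1 h1 (mem_sdiff.2 ⟨mem_T.2 (mem_rows.1 hi).2, h3⟩) hi
    by_cases h4 : K = rows j l
    · rw [if_pos h4, if_pos]
      intro i hi
      rw [← h4]
      exact mem_toList.1 hi
    · rw [if_neg h4, if_neg]
      intro h5
      exact h4 (Finset.Subset.antisymm (fun i hi => h5 i (mem_toList.2 hi)) h2)
  · rw [if_neg h1, D_zero, if_neg]
    rintro rfl
    exact h1 Finset.sdiff_disjoint

theorem FF_wd {j r : ℕ} (l : List (Fin N × Fin N)) (hl : ∀ p ∈ l, IsOut j p ∨ IsUp j p) :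
    FF j r (wd l) = if (rows j l).card ≤ r then wd l else 0 := by
  rw [FF, Finset.sum_congr rfl fun K hK =>
    prt_wd (mem_powerset.1 (mem_filter.1 hK).1) l hl, Finset.sum_ite_eq']
  have h : rows j l ∈ ((T N j).powerset.filter fun K => K.card ≤ r) ↔ (rows j l).card ≤ r := by
    rw [mem_filter, mem_powerset]
    constructor
    · exact fun h => h.2
    · exact fun h => ⟨fun i hi => mem_T.2 (mem_rows.1 hi).2, h⟩
  simp only [h]

theorem FF_zero (j r : ℕ) : FF j r (0 : A N) = 0 := by
  simp [FF, prt, D_zero]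

theorem FF_add (j r : ℕ) (z w : A N) : FF j r (z + w) = FF j r z + FF j r w := by
  simp only [FF, prt, map_add, D_add, Finset.sum_add_distrib]

theorem FF_neg (j r : ℕ) (z : A N) : FF j r (-z) = -FF j r z := by
  simp only [FF, prt, map_neg, D_neg, Finset.sum_neg_distrib]

theorem exists_wd {j : ℕ} {w : A N} (hw : w ∈ Submonoid.closure (OutUp N j)) :
    ∃ l : List (Fin N × Fin N), (∀ p ∈ l, IsOut j p ∨ IsUp j p) ∧ w = wd l := by
  induction hw using Submonoid.closure_induction with
  | mem z hz =>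
    obtain ⟨p, hp, rfl⟩ := hz
    exact ⟨[p], by simpa using hp, by simp [wd]⟩
  | one => exact ⟨[], by simp, rfl⟩
  | mul a b _ _ ha hb =>
    obtain ⟨l1, h1, rfl⟩ := ha
    obtain ⟨l2, h2, rfl⟩ := hb
    refine ⟨l1 ++ l2, fun p hp => ?_, by simp [wd]⟩
    rcases List.mem_append.1 hp with h | h
    · exact h1 p h
    · exact h2 p h

theorem glu : GluStmt := by
  intro N j r I Γ hr hj hI hΓ hK
  refine ⟨FF j r Γ, ?_, ?_⟩
  · refine sum_mem fun K hK1 => ?_
    obtain ⟨h1, h2⟩ := mem_filter.1 hK1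
    have h3 := mem_powerset.1 h1
    obtain ⟨K', h4, h5, h6⟩ : ∃ K' : Finset (Fin N), K ⊆ K' ∧ K' ⊆ T N j ∧ K'.card = r :=
      Finset.exists_subsuperset_card_eq h3 h2 (by rw [card_T hj]; exact hr)
    have h7 := hK K' (fun i hi => mem_T.1 (h5 hi)) h6
    rw [filter_T] at h7
    have h8 : kilS (T N j \ K) Γ = kilS (T N j \ K) (kilS (T N j \ K') Γ) :=
      (kilS_kilS (Finset.sdiff_subset_sdiff (Finset.Subset.refl _) h4) Γ).symm
    rw [prt, h8]
    exact D_P _ (kilS_P _ h7)
  · have h1 : Γ ∈ AddSubgroup.closure (Submonoid.closure (OutUp N j) : Set (A N)) :=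
      Subring.mem_closure_iff.1 hΓ
    clear hK hΓ
    induction h1 using AddSubgroup.closure_induction with
    | mem z hz =>
      obtain ⟨l, hl, rfl⟩ := exists_wd hz
      rw [FF_wd l hl]
      by_cases h : (rows j l).card ≤ r
      · rw [if_pos h, sub_self]; exact I.zero_mem
      · rw [if_neg h, sub_zero]
        exact hI l hl (by omega)
    | zero => rw [FF_zero, sub_zero]; exact I.zero_mem
    | add a b _ _ ha hb =>
      rw [FF_add, add_sub_add_comm]
      exact I.add_mem ha hb
    | neg a _ ha =>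
      rw [FF_neg, sub_neg_eq_add]
      have : -a + FF j r a = -(a - FF j r a) := by abel
      rw [this]
      exact I.neg_mem ha

end Pool.Agent.FKP.H9
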