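import Pool.Agent.Helper35_FKP.Cls
import Pool.Agent.Helper25_FKP.Avc

/-!
# FKP, row SML: all permutations whose skew components have size at most 4
-/

set_option autoImplicit false

open Finset Equiv

noncomputable section

namespace Pool.Agent.FKP.H9

theorem step {N : ℕ} {S : Perm (Fin N) → MvPolynomial (Fin N) ℤ} (hS : IsSch N S)
    {w w' : Perm (Fin N)} {f g : MvPolynomial (Fin N) ℤ} (i j : Fin N) (hij : (i : ℕ) + 1 = j)
    (hw : w j < w i) (h1 : S w = f) (h3 : w * swap i j = w')
    (h2 : (MvPolynomial.X i - MvPolynomial.X j) * g = f - MvPolynomial.rename (swap i j) f) :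
    S w' = g := by
  have h := hS.2 w i j hij hw
  rw [h1, h3] at h
  have hne : (MvPolynomial.X i - MvPolynomial.X j : MvPolynomial (Fin N) ℤ) ≠ 0 := by
    intro h0
    have := MvPolynomial.X_injective (sub_eq_zero.1 h0)
    rw [this] at hij
    omega
  exact mul_left_cancel₀ hne (h.trans h2.symm)

/-! permutations of `S_4`, in one line notation with values `1, .., 4` -/

/-- 3421 -/
abbrev w1 : Perm (Fin 4) := Fin.revPerm * swap 0 1
/-- 3412 -/
abbrev w2 : Perm (Fin 4) := w1 * swap 2 3
abbrev w3142 : Perm (Fin 4) := w2 * swap 1 2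
/-- 3124 -/
abbrev w3 : Perm (Fin 4) := w3142 * swap 2 3
abbrev w1324 : Perm (Fin 4) := w3 * swap 0 1
/-- 4231 -/
abbrev v1 : Perm (Fin 4) := Fin.revPerm * swap 1 2
/-- 4213 -/
abbrev v2 : Perm (Fin 4) := v1 * swap 2 3
/-- 2413 -/
abbrev v3 : Perm (Fin 4) := v2 * swap 0 1
abbrev w2143 : Perm (Fin 4) := v3 * swap 1 2

variable {S : Perm (Fin 4) → MvPolynomial (Fin 4) ℤ}

theorem s0 (hS : IsSch 4 S) :
    S Fin.revPerm = MvPolynomial.X 0 ^ 3 * MvPolynomial.X 1 ^ 2 * MvPolynomial.X 2 := by
  rw [hS.1, Fin.prod_univ_four]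
  simp

theorem s1 (hS : IsSch 4 S) :
    S w1 = MvPolynomial.X 0 ^ 2 * MvPolynomial.X 1 ^ 2 * MvPolynomial.X 2 := by
  refine step hS 0 1 rfl (by decide) (s0 hS) rfl ?_
  simp only [map_mul, map_pow, MvPolynomial.rename_X]
  rw [swap_apply_left, swap_apply_right, swap_apply_of_ne_of_ne (by decide) (by decide)]
  ring

theorem s2 (hS : IsSch 4 S) : S w2 = MvPolynomial.X 0 ^ 2 * MvPolynomial.X 1 ^ 2 := by
  refine step hS 2 3 rfl (by decide) (s1 hS) rfl ?_
  simp only [map_mul, map_pow, MvPolynomial.rename_X]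
  rw [swap_apply_left, swap_apply_of_ne_of_ne (a := 2) (x := 0) (by decide) (by decide),
    swap_apply_of_ne_of_ne (by decide) (by decide)]
  ring

theorem s3142 (hS : IsSch 4 S) :
    S w3142 = MvPolynomial.X 0 ^ 2 * (MvPolynomial.X 1 + MvPolynomial.X 2) := by
  refine step hS 1 2 rfl (by decide) (s2 hS) rfl ?_
  simp only [map_mul, map_pow, MvPolynomial.rename_X]
  rw [swap_apply_left, swap_apply_of_ne_of_ne (by decide) (by decide)]
  ring

theorem s3 (hS : IsSch 4 S) : S w3 = MvPolynomial.X 0 ^ 2 := by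
  refine step hS 2 3 rfl (by decide) (s3142 hS) rfl ?_
  simp only [map_mul, map_pow, map_add, MvPolynomial.rename_X]
  rw [swap_apply_left, swap_apply_of_ne_of_ne (a := 2) (x := 0) (by decide) (by decide),
    swap_apply_of_ne_of_ne (by decide) (by decide)]
  ring

theorem s1324 (hS : IsSch 4 S) : S w1324 = MvPolynomial.X 0 + MvPolynomial.X 1 := by
  refine step hS 0 1 rfl (by decide) (s3 hS) rfl ?_
  simp only [map_pow, MvPolynomial.rename_X]
  rw [swap_apply_left]
  ring

theorem t1 (hS : IsSch 4 S) :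
    S v1 = MvPolynomial.X 0 ^ 3 * MvPolynomial.X 1 * MvPolynomial.X 2 := by
  refine step hS 1 2 rfl (by decide) (s0 hS) rfl ?_
  simp only [map_mul, map_pow, MvPolynomial.rename_X]
  rw [swap_apply_left, swap_apply_right, swap_apply_of_ne_of_ne (by decide) (by decide)]
  ring

theorem t2 (hS : IsSch 4 S) : S v2 = MvPolynomial.X 0 ^ 3 * MvPolynomial.X 1 := by
  refine step hS 2 3 rfl (by decide) (t1 hS) rfl ?_
  simp only [map_mul, map_pow, MvPolynomial.rename_X]
  rw [swap_apply_left, swap_apply_of_ne_of_ne (a := 2) (x := 0) (by decide) (by decide),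
    swap_apply_of_ne_of_ne (by decide) (by decide)]
  ring

theorem t3 (hS : IsSch 4 S) :
    S v3 = MvPolynomial.X 0 ^ 2 * MvPolynomial.X 1 + MvPolynomial.X 0 * MvPolynomial.X 1 ^ 2 := by
  refine step hS 0 1 rfl (by decide) (t2 hS) rfl ?_
  simp only [map_mul, map_pow, MvPolynomial.rename_X]
  rw [swap_apply_left, swap_apply_right]
  ring

theorem s2143 (hS : IsSch 4 S) :
    S w2143 = MvPolynomial.X 0 * (MvPolynomial.X 0 + MvPolynomial.X 1 + MvPolynomial.X 2) := by
  refine step hS 1 2 rfl (by decide) (t3 hS) rfl ?_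
  simp only [map_mul, map_pow, map_add, MvPolynomial.rename_X]
  rw [swap_apply_left, swap_apply_of_ne_of_ne (by decide) (by decide)]
  ring

theorem ek11 : ek 4 1 1 = MvPolynomial.X 0 := by
  rw [ek, show (univ.filter fun i : Fin 4 => i.val < 1) = {0} by decide]
  simp [powersetCard_one]

theorem ek21 : ek 4 2 1 = MvPolynomial.X 0 + MvPolynomial.X 1 := by
  rw [ek, show (univ.filter fun i : Fin 4 => i.val < 2) = {0, 1} by decide,
    powersetCard_one, sum_map]
  simp

theorem ek31 : ek 4 3 1 = MvPolynomial.X 0 + MvPolynomial.X 1 + MvPolynomial.X 2 := by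
  rw [ek, show (univ.filter fun i : Fin 4 => i.val < 3) = {0, 1, 2} by decide,
    powersetCard_one, sum_map]
  simp [add_assoc]

theorem ek32 : ek 4 3 2 = MvPolynomial.X 0 * MvPolynomial.X 1 + MvPolynomial.X 0 * MvPolynomial.X 2
    + MvPolynomial.X 1 * MvPolynomial.X 2 := by
  rw [ek, show powersetCard 2 (univ.filter fun i : Fin 4 => i.val < 3) =
    {{0, 1}, {0, 2}, {1, 2}} by decide]
  rw [sum_insert (by decide), sum_insert (by decide), sum_singleton,
    prod_pair (by decide), prod_pair (by decide), prod_pair (by decide), add_assoc]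

theorem ek33 : ek 4 3 3 = MvPolynomial.X 0 * MvPolynomial.X 1 * MvPolynomial.X 2 := by
  rw [ek, show powersetCard 3 (univ.filter fun i : Fin 4 => i.val < 3) = {{0, 1, 2}} by decide]
  rw [sum_singleton, prod_insert (by decide), prod_pair (by decide), mul_assoc]

/-- permutations with the Schubert polynomial `f`, `f` basic -/
theorem of_bas {N : ℕ} {w : Perm (Fin N)} (f : MvPolynomial (Fin N) ℤ) (hf : Bas N f)
    (h : ∀ S, IsSch N S → S w = f) : Cls noB N w := by
  refine Cls.mul f (Cls.one N) hf fun S hS => ?_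
  have h1 := (All.cyc N S hS).1
  have h2 := (Isy N).mul_mem_right f ((Isy N).neg_mem h1)
  rw [h S hS]
  refine (congrArg (· ∈ Isy N) ?_).mp h2
  ring

theorem c1324 : Cls noB 4 w1324 :=
  of_bas (ek 4 2 1) (Bas.e 4 2 1 (by omega)) fun S hS => by rw [s1324 hS, ek21]

theorem c3142 : Cls noB 4 w3142 := by
  refine of_bas _ (Bas.t 4 3 2 2 1 (by omega) (by omega) (by omega) (by omega)) fun S hS => ?_
  rw [s3142 hS, ek32, show 3 - 2 = 1 from rfl, show 2 + 1 = 3 from rfl, ek11, ek33]
  ring

theorem s2134 (hS : IsSch 4 S) : S (w2143 * swap 2 3) = MvPolynomial.X 0 := by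
  refine step hS 2 3 rfl (by decide) (s2143 hS) rfl ?_
  simp only [map_mul, map_add, MvPolynomial.rename_X]
  rw [swap_apply_left, swap_apply_of_ne_of_ne (a := 2) (x := 0) (by decide) (by decide),
    swap_apply_of_ne_of_ne (by decide) (by decide)]
  ring

theorem c2143 : Cls noB 4 w2143 := by
  refine Cls.mul (ek 4 3 1) (of_bas (w := w2143 * swap 2 3) (ek 4 1 1) (Bas.e 4 1 1 (by omega))
    fun S hS => by rw [s2134 hS, ek11]) (Bas.e 4 3 1 (by omega)) fun S hS => ?_
  rw [s2143 hS, s2134 hS, ek31, sub_self]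
  exact zero_mem _

theorem small3 {N : ℕ} (w : Perm (Fin N)) (hN : N ≤ 3) : Av w := by
  intro a b c d h1 h2 h3
  exfalso
  have := d.isLt
  omega

theorem small4 (w : Perm (Fin 4)) : Cls noB 4 w := by
  by_cases h : Av w
  · exact H25.avc_full 4 w h
  · simp only [Av, not_forall] at h
    obtain ⟨a, b, c, d, hab, hbc, hcd, h⟩ := h
    have ha : a = 0 := by omega
    have hb : b = 1 := by omega
    have hc : c = 2 := by omega
    have hd : d = 3 := by omega
    subst ha hb hc hd
    by_cases h1 : w 0 < w 2 ∧ w 2 < w 1 ∧ w 1 < w 3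
    · have e : w = w1324 := by
        ext i
        fin_cases i
        · show (w 0 : ℕ) = 0
          omega
        · show (w 1 : ℕ) = 2
          omega
        · show (w 2 : ℕ) = 1
          omega
        · show (w 3 : ℕ) = 3
          omega
      rw [e]; exact c1324
    · by_cases h2 : w 1 < w 0 ∧ w 0 < w 3 ∧ w 3 < w 2
      · have e : w = w2143 := by
          ext i
          fin_cases i
          · show (w 0 : ℕ) = 1
            omega
          · show (w 1 : ℕ) = 0
            omega
          · show (w 2 : ℕ) = 3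
            omega
          · show (w 3 : ℕ) = 2
            omega
        rw [e]; exact c2143
      · have h3 : w 1 < w 3 ∧ w 3 < w 0 ∧ w 0 < w 2 := by
          by_contra h3
          exact h ⟨h1, h2, h3⟩
        have e : w = w3142 := by
          ext i
          fin_cases i
          · show (w 0 : ℕ) = 2
            omega
          · show (w 1 : ℕ) = 0
            omega
          · show (w 2 : ℕ) = 3
            omega
          · show (w 3 : ℕ) = 1
            omega
        rw [e]; exact c3142

/-- SML -/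
theorem sml : SmlStmt := by
  intro N w h
  induction h with
  | @small N w hN =>
    rcases Nat.lt_or_ge 3 N with h | h
    · obtain rfl : N = 4 := by omega
      exact small4 w
    · exact H25.avc_full N w (small3 w h)
  | skew _ _ ih1 ih2 => exact Cls.skew ih1 ih2

end Pool.Agent.FKP.H9
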